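import Pool.Agent.Helper69.MC.StC
import Pool.Agent.Helper2.MF.M_GEN

/-!
# Project MC (MP_9583f0_gt), module GNC: general position with respect to a line
-/

set_option autoImplicit false

namespace Pool.Agent.Helper36.MC

open Set Topology Filter MeasureTheory
open Pool.Agent.Helper31.CY Pool.Agent.Helper69.MF Pool.Agent.Helper69.MC
open Pool.Agent.Helper2.MF

/-- **module GNC** -/
theorem hGNC : StGNC := by
  intro Γ o0 o1 h hΓk _ γ hγ
  obtain ⟨hc, h01, hΓ⟩ := hγ
  have hΓc : IsClosed Γ := hΓk.isClosed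
  have hdis : Disjoint (range γ) Γ := by
    rw [Set.disjoint_left]
    rintro _ ⟨s, rfl⟩
    exact hΓ s
  obtain ⟨δ, hδ, hth⟩ := hdis.exists_thickenings (isCompact_range hc) hΓc
  have hfar : ∀ (s : unitInterval) (y : E3), dist y (γ s) < δ → y ∉ Γ := by
    intro s y hy hyΓ
    rw [Set.disjoint_left] at hth
    refine hth (a := y) ?_ ?_
    · rw [Metric.mem_thickening_iff]
      exact ⟨γ s, mem_range_self s, hy⟩
    · exact Metric.self_subset_thickening hδ Γ hyΓ
  have hε : (0 : ℝ) < δ / 8 := by positivity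
  have g0 : Continuous (fun s => γ s 0) := by fun_prop
  have g1 : Continuous (fun s => γ s 1) := by fun_prop
  have g2 : Continuous (fun s => γ s 2) := by fun_prop
  obtain ⟨q0, a0, b0⟩ := polyApprox (fun s => γ s 0) g0 (by simp only [h01]) _ hε
  obtain ⟨q1, a1, b1⟩ := polyApprox (fun s => γ s 1) g1 (by simp only [h01]) _ hε
  obtain ⟨q2, a2, b2⟩ := polyApprox (fun s => γ s 2) g2 (by simp only [h01]) _ hε
  -- a small generic translation in the plane
  have hPc : ∀ q : Polynomial ℝ, ContDiff ℝ 1 (fun s : ℝ => q.eval s) := by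
    intro q
    have h5 := Polynomial.contDiff_aeval (𝕜 := ℝ) q 1
    simpa using h5
  have hF : ContDiff ℝ 1 (fun s : ℝ =>
      ((q0.eval s, q1.eval s) : ℝ × ℝ) - (o0 + (q2.eval s / h) • (o1 - o0))) :=
    ((hPc q0).prodMk (hPc q1)).sub
      (contDiff_const.add (((hPc q2).div_const h).smul contDiff_const))
  have hdense : Dense (range (fun s : ℝ =>
      ((q0.eval s, q1.eval s) : ℝ × ℝ) - (o0 + (q2.eval s / h) • (o1 - o0))))ᶜ := by
    refine hF.dense_compl_range_of_finrank_lt_finrank ?_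
    simp
  obtain ⟨e, he1, he2⟩ := hdense.exists_dist_lt (0, 0) hε
  rw [Prod.dist_eq, max_lt_iff, Real.dist_eq, Real.dist_eq] at he2
  simp only [zero_sub, abs_neg] at he2
  set γ1 : unitInterval → E3 := fun s =>
    pt (q0.eval (s : ℝ) - e.1) (q1.eval (s : ℝ) - e.2) (q2.eval (s : ℝ)) with hγ1
  have k0 : ∀ s, γ1 s 0 = q0.eval (s : ℝ) - e.1 := fun s => by simp [hγ1, pt]
  have k1 : ∀ s, γ1 s 1 = q1.eval (s : ℝ) - e.2 := fun s => by simp [hγ1, pt]
  have k2 : ∀ s, γ1 s 2 = q2.eval (s : ℝ) := fun s => by simp [hγ1, pt]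
  have hclose : ∀ s, dist (γ1 s) (γ s) < δ := by
    intro s
    have c0 := b0 s
    have c1 := b1 s
    have c2 := b2 s
    have d1 := he2.1
    have d2 := he2.2
    rw [abs_lt] at c0 c1 c2 d1 d2
    refine dist_lt _ _ δ hδ ?_ ?_ ?_
    · rw [k0, abs_lt]
      constructor <;> linarith [c0.1, c0.2, d1.1, d1.2]
    · rw [k1, abs_lt]
      constructor <;> linarith [c1.1, c1.2, d2.1, d2.2]
    · rw [k2, abs_lt]
      constructor <;> linarith [c2.1, c2.2]
  have hc1 : Continuous γ1 := by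
    have hp : ∀ q : Polynomial ℝ, Continuous (fun s : unitInterval => q.eval (s : ℝ)) :=
      fun q => q.continuous.comp continuous_subtype_val
    exact pt_cont.comp (((hp q0).sub continuous_const).prodMk
      (((hp q1).sub continuous_const).prodMk (hp q2)))
  have hends : γ1 0 = γ1 1 := by
    have c0 : ((0 : unitInterval) : ℝ) = 0 := rfl
    have c1 : ((1 : unitInterval) : ℝ) = 1 := rfl
    simp only [hγ1, c0, c1, a0, a1, a2]
  refine ⟨γ1, ⟨fun q => (1 - (q.1 : ℝ)) • γ q.2 + (q.1 : ℝ) • γ1 q.2, ?_, ?_, ?_, ?_, ?_⟩, ?_⟩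
  · have c1 : Continuous (fun q : unitInterval × unitInterval => (q.1 : ℝ)) :=
      continuous_subtype_val.comp continuous_fst
    exact ((continuous_const.sub c1).smul (hc.comp continuous_snd)).add
      (c1.smul (hc1.comp continuous_snd))
  · intro s
    simp
  · intro s
    simp
  · intro t
    simp only [h01, hends]
  · rintro ⟨t, s⟩
    refine hfar s _ ?_
    have e1 : (1 - (t : ℝ)) • γ s + (t : ℝ) • γ1 s - γ s = (t : ℝ) • (γ1 s - γ s) := by
      rw [sub_smul, one_smul, smul_sub]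
      abel
    have t0 : (0 : ℝ) ≤ (t : ℝ) := t.2.1
    have t1 : (t : ℝ) ≤ 1 := t.2.2
    rw [dist_eq_norm, e1, norm_smul, Real.norm_eq_abs, abs_of_nonneg t0]
    have h3 := hclose s
    rw [dist_eq_norm] at h3
    calc (t : ℝ) * ‖γ1 s - γ s‖ ≤ 1 * ‖γ1 s - γ s‖ :=
          mul_le_mul_of_nonneg_right t1 (norm_nonneg _)
      _ < δ := by rw [one_mul]; exact h3
  · intro s heq
    rw [k0, k1, k2] at heq
    unfold ctr at heq
    apply he1
    refine ⟨(s : ℝ), ?_⟩
    show ((q0.eval (s : ℝ), q1.eval (s : ℝ)) : ℝ × ℝ)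
      - (o0 + (q2.eval (s : ℝ) / h) • (o1 - o0)) = e
    rw [← heq]
    ext
    · simp
    · simp

end Pool.Agent.Helper36.MC
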